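import Pool.Agent.CvB.DedB
import Pool.Agent.CvP.Deg

/-!
# ALL CURVES: the ray class group of a plane curve over extensions of the prime field
(definitions)

`Gc h`: the classes of degree divisible by `d`, of the curve `f` with the modulus `D`. `fm κ f`,
`dm κ D`: the same curve
over the extension `κ`.
-/

set_option autoImplicit false

namespace Pool.Agent.CvF

open Polynomial Pool.Agent.CvA Pool.Agent.CvB Pool.Agent.CvP

variable {k : Type} [Field k] {f : k[X][X]} {d : ℕ} {D : k[X]}

/-- the group of the ray classes of degree divisible by `d` -/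
def Gc (h : Ok f d D) : Type :=
  letI := dom_CA h.cv
  letI := ded h
  ↥(Gr (md h) (CR f D))

noncomputable instance (h : Ok f d D) : CommGroup (Gc h) :=
  letI := dom_CA h.cv
  letI := ded h
  inferInstanceAs (CommGroup ↥(Gr (md h) (CR f D)))

/-- the curve over the extension `κ` -/
noncomputable abbrev fm (κ : Type) [Field κ] [Algebra k κ] (f : k[X][X]) : κ[X][X] :=
  f.map (mapRingHom (algebraMap k κ))

/-- the modulus over the extension `κ` -/
noncomputable abbrev dm (κ : Type) [Field κ] [Algebra k κ] (D : k[X]) : κ[X] :=
  D.map (algebraMap k κ)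

/-- the number of the points with coordinates in the field with `p ^ n` elements -/
noncomputable def npt {p : ℕ} [Fact p.Prime] (f : (ZMod p)[X][X]) (D : (ZMod p)[X]) (n : ℕ) : ℕ :=
  Nat.card {c : GaloisField p n × GaloisField p n //
    (fm (GaloisField p n) f).evalEval c.1 c.2 = 0 ∧ (dm (GaloisField p n) D).eval c.1 ≠ 0}

end Pool.Agent.CvF
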