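import Pool.Agent.CvF.Zd
import Pool.Agent.CvZ.Main

/-!
# Package CvF-Main: the final statement of the pure part (page 7.8)

`κ m` is a field with `p ^ m` elements; `n1 = d ^ 3 + d + d natDegree D`, `b = n1 + d`, `s = pa d
+ d (1 + natDegree D)`,
`K = 2 ^ (b + 1)`. If the curve is a curve (irreducible) over `κ m` for `1 ≤ m ≤ K d`, then there
is an integer vector `e`
with the properties which determine it (`Unq.pol_uniq`, `Unq.coef_def`), and the number of the
points over `ZMod p` is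
`p + e 0`. Proof: `CvZ.main` for `q = p`, `H m = card (Gc (hOk m))` (and `1` for other `m`), `N j
= npt f D j`, `zd_cv`. For
`m = 1`: `npt f D 1` is the number of the points over `ZMod p` (`npt_eq` for `L = ZMod p`, `fm
(ZMod p) f = f`).
-/

set_option autoImplicit false

namespace Pool.Agent.CvF

open Polynomial Pool.Agent.CvA Pool.Agent.CvB Pool.Agent.CvP Pool.Agent.CvZ

variable {p : ℕ} [Fact p.Prime]

/-- the bound `n1` -/
def nn (d Dl : ℕ) : ℕ := d ^ 3 + d + d * Dl

/-- the exponent `s` -/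
def ss (d Dl : ℕ) : ℕ := pa d + d * (1 + Dl)

private theorem fm_Main (f : (ZMod p)[X][X]) : fm (ZMod p) f = f := by
  have h : mapRingHom (algebraMap (ZMod p) (ZMod p)) = RingHom.id _ := by
    rw [Algebra.algebraMap_self]
    exact mapRingHom_id
  show f.map (mapRingHom (algebraMap (ZMod p) (ZMod p))) = f
  rw [h, Polynomial.map_id]

private theorem dm_Main (D : (ZMod p)[X]) : dm (ZMod p) D = D := by
  show D.map (algebraMap (ZMod p) (ZMod p)) = D
  rw [Algebra.algebraMap_self, Polynomial.map_id]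

private theorem npt_Main (f : (ZMod p)[X][X]) (D : (ZMod p)[X]) :
    Nat.card {c : ZMod p × ZMod p // f.evalEval c.1 c.2 = 0 ∧ D.eval c.1 ≠ 0} = npt f D 1 := by
  have h := npt_eq f D (ZMod p) (n := 1) le_rfl (by rw [Nat.card_zmod, pow_one])
  rw [fm_Main, dm_Main] at h
  exact h

theorem final {f : (ZMod p)[X][X]} {d : ℕ} {D : (ZMod p)[X]} (hd : 1 ≤ d) (κ : ℕ → Type)
    [∀ m, Field (κ m)] [∀ m, Algebra (ZMod p) (κ m)] (hκ : ∀ m, 1 ≤ m → Nat.card (κ m) = p ^ m)
    (hOk : ∀ m, 1 ≤ m → m ≤ 2 ^ (nn d D.natDegree + d + 1) * d →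
      Ok (fm (κ m) f) d (dm (κ m) D)) :
    ∃ e : Fin (nn d D.natDegree + d) → ℤ,
      (∀ γ : ℂ, ((Unq.pol e).map (Int.castRingHom ℂ)).IsRoot γ → ‖γ‖ < p) ∧
      (∀ m, 1 ≤ m → m ≤ 2 ^ (nn d D.natDegree + d + 1) → ∀ h : Ok (fm (κ m) f) d (dm (κ m) D),
        (p : ℤ) ^ (m * ss d D.natDegree) * Unq.rs e p m =
          Nat.card (Gc h) * (p : ℤ) ^ (m * (nn d D.natDegree + d + 1))) ∧
      (∀ i, (e i).natAbs ≤ 2 ^ (nn d D.natDegree + d) * p ^ (nn d D.natDegree + d)) ∧
      ∀ i : Fin (nn d D.natDegree + d), (i : ℕ) = 0 →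
        (Nat.card {c : ZMod p × ZMod p // f.evalEval c.1 c.2 = 0 ∧ D.eval c.1 ≠ 0} : ℤ) =
          p + e i := by
  classical
  have hp : 2 ≤ p := (Fact.out : p.Prime).two_le
  obtain ⟨e, h1, h2, h3, h4⟩ := CvZ.main (q := p) (n1 := nn d D.natDegree) (d := d)
    (s := ss d D.natDegree) hp hd
    (H := fun m => if h : Ok (fm (κ m) f) d (dm (κ m) D) then Nat.card (Gc h) else 1)
    (N := npt f D) (by
      intro m hm hmK
      have h := hOk m hm hmK
      have hz := zd_cv (κ m) hm (hκ m hm) h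
      simp only [dif_pos h]
      exact hz)
  refine ⟨e, h1, ?_, h3, ?_⟩
  · intro m hm hmK h
    have h5 := h2 m hm hmK
    simp only [dif_pos h] at h5
    exact h5
  · intro i hi
    rw [npt_Main]
    exact h4 i hi

end Pool.Agent.CvF
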