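import Pool.Agent.CvF.Defs
import Pool.Agent.CvP.Main
import Pool.Agent.CvI.Hom
import Pool.Agent.CvB.PtsB

/-!
# Package CvF-Zd: the numerical data of a plane curve over the field with `p ^ m` elements

`npt_eq`: for every field `L` with `p ^ n` elements (`1 ≤ n`) and `Algebra (ZMod p) L` the number
of the points over `L` is
`npt f D n`: `L` and `GaloisField p n` are isomorphic over `ZMod p`
(`FiniteField.algEquivOfCardEq`,
`GaloisField.algEquivGaloisField`), the isomorphism maps points to points.

`zd_cv`: `κ` a field with `p ^ m` elements, `Algebra (ZMod p) κ`, `h : Ok (fm κ f) d (dm κ D)`: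
`CvP.zd` for `md h` gives
`ZD (p ^ m) n1 d s (card (Gc h)) (nj κ R)`. For `j ≥ 1` let `L` be an extension of `κ` of degree
`j` (for example
`FiniteField.Extension`, or `GaloisField p (m j)` with the algebra structure from an embedding of
`κ`; or the splitting
field of `X ^ (q ^ j) - X` over `κ`). `card_hom` (with `CvP.fq (md h)`, `inf_CR h`): `nj κ R j =
card (R →ₐ[κ] L)`, `card_pts`: the number of the
points over `L`, with `(fm κ f)` mapped to `L`; this is `fm L f` for the algebra structure of `L`
over `ZMod p`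
(`Polynomial.map_map`, ring homomorphisms from `ZMod p` are unique), so it is `npt f D (m j)` by
`npt_eq`
(`card L = p ^ (m j)`). The recursion in `ZDd` uses only `N j` for `j ≥ 1`.
-/

set_option autoImplicit false

namespace Pool.Agent.CvF

open Polynomial Pool.Agent.CvA Pool.Agent.CvB Pool.Agent.CvI Pool.Agent.CvP
  Pool.Agent.CvZ

variable {p : ℕ} [Fact p.Prime]

omit [Fact p.Prime] in
private theorem map_fm_Zd {κ L : Type} [Field κ] [Field L] {F : Type} [Field F] [Algebra F κ]
    [Algebra F L] (φ : κ →+* L) (h : φ.comp (algebraMap F κ) = algebraMap F L) (f : F[X][X]) :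
    (fm κ f).map (mapRingHom φ) = fm L f := by
  unfold fm
  rw [Polynomial.map_map, mapRingHom_comp, h]

private theorem map_dm_Zd {κ L : Type} [Field κ] [Field L] {F : Type} [Field F] [Algebra F κ]
    [Algebra F L] (φ : κ →+* L) (h : φ.comp (algebraMap F κ) = algebraMap F L) (D : F[X]) :
    (dm κ D).map φ = dm L D := by
  unfold dm
  rw [Polynomial.map_map, h]

theorem npt_eq (f : (ZMod p)[X][X]) (D : (ZMod p)[X]) (L : Type) [Field L] [Algebra (ZMod p) L]
    {n : ℕ} (hn : 1 ≤ n) (hL : Nat.card L = p ^ n) :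
    Nat.card {c : L × L // (fm L f).evalEval c.1 c.2 = 0 ∧ (dm L D).eval c.1 ≠ 0} =
      npt f D n := by
  have _ := hn
  let e : L ≃ₐ[ZMod p] GaloisField p n := GaloisField.algEquivGaloisField p n hL
  have he : (e : L →+* GaloisField p n).comp (algebraMap (ZMod p) L) =
      algebraMap (ZMod p) (GaloisField p n) := Subsingleton.elim _ _
  unfold npt
  refine Nat.card_congr (Equiv.subtypeEquiv (Equiv.prodCongr e.toEquiv e.toEquiv) ?_)
  rintro ⟨a, b⟩
  have h1 := map_mapRingHom_evalEval (f := (e : L →+* GaloisField p n)) (p := fm L f) a b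
  rw [map_fm_Zd (e : L →+* GaloisField p n) he] at h1
  have h2 : (dm (GaloisField p n) D).eval (e a) = e ((dm L D).eval a) := by
    rw [← map_dm_Zd (e : L →+* GaloisField p n) he D]
    exact eval_map_apply (e : L →+* GaloisField p n) a
  have h3 : (fm (GaloisField p n) f).evalEval (e a) (e b) = e ((fm L f).evalEval a b) := h1
  show _ ↔ (fm (GaloisField p n) f).evalEval (e a) (e b) = 0 ∧
    (dm (GaloisField p n) D).eval (e a) ≠ 0
  rw [h2, h3, map_eq_zero_iff e e.injective, Ne, Ne, map_eq_zero_iff e e.injective]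

theorem zd_cv {f : (ZMod p)[X][X]} {d : ℕ} {D : (ZMod p)[X]} (κ : Type) [Field κ]
    [Algebra (ZMod p) κ] {m : ℕ} (hm : 1 ≤ m) (hκ : Nat.card κ = p ^ m)
    (h : Ok (fm κ f) d (dm κ D)) :
    0 < Nat.card (Gc h) ∧
    ZD (p ^ m) (d ^ 3 + d + d * D.natDegree) d (pa d + d * (1 + D.natDegree)) (Nat.card (Gc h))
      (fun j => npt f D (m * j)) := by
  letI := dom_CA h.cv
  letI := ded h
  have hfin : Finite κ := Nat.finite_of_card_ne_zero
    (by rw [hκ]; exact pow_ne_zero _ (Fact.out : p.Prime).ne_zero)
  have hnd : (dm κ D).natDegree = D.natDegree := natDegree_map _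
  have hch : CharP κ p := by
    rw [← Algebra.charP_iff (ZMod p) κ p]
    exact ZMod.charP p
  have hF : Finite (CvP.Cl (md h) (CR (fm κ f) (dm κ D))) := fin_cl (md h) (CR (fm κ f) (dm κ D))
  have key : ∀ j, 1 ≤ j → CvI.nj κ (CR (fm κ f) (dm κ D)) j = npt f D (m * j) := by
    intro j hj
    haveI : NeZero j := ⟨by omega⟩
    have h1 := CvI.card_hom (fq (md h) (R := CR (fm κ f) (dm κ D))) (inf_CR h)
      (FiniteField.Extension κ p j)
    rw [FiniteField.finrank_extension] at h1
    have hc : (algebraMap κ (FiniteField.Extension κ p j)).comp (algebraMap (ZMod p) κ) =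
        algebraMap (ZMod p) (FiniteField.Extension κ p j) := Subsingleton.elim _ _
    rw [← h1, card_pts, map_fm_Zd _ hc, map_dm_Zd _ hc]
    refine npt_eq f D (FiniteField.Extension κ p j) (Nat.mul_pos hm hj) ?_
    rw [FiniteField.natCard_extension, hκ, pow_mul]
  constructor
  · have h5 : Finite (Gc h) := by
      unfold Gc
      infer_instance
    exact Nat.card_pos
  · obtain ⟨a, δ, h0, h1, h2, h3, h4⟩ := CvP.zd (md h) (CR (fm κ f) (dm κ D))
    refine ⟨a, δ, h0, h1, h2, ?_, ?_⟩
    · intro n
      rw [h3 n]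
      refine Finset.sum_congr rfl fun j hj => ?_
      rw [key j (Finset.mem_Icc.1 hj).1]
    · intro n hn
      have hDl : (md h).Dl = D.natDegree := hnd
      have h6 : (md h).n1 ≤ n := by
        unfold Md.n1
        rw [hDl]
        exact hn
      have h7 := h4 n h6
      rw [hκ, hDl] at h7
      exact h7

end Pool.Agent.CvF
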